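import Pool.Agent.H91.WT.Lib

/-! DIV. A constant class, all divisors. -/

set_option autoImplicit false

open Polynomial Matrix Pool.Agent.H63.WT

namespace Pool.Agent.H91.WT

section aux

variable {F : Type} [Field F]

/-- a degree-two divisor and a rational point lie on a curve `Y² - M` -/
theorem curve_two {m : F} {M0 T : F[X]} {t0 y0 : F} (hm : m ≠ 0) (hM : M0.Monic)
    (hMs : M0.Separable) (hMd : M0.natDegree = 4) (hT : T.Monic) (hTd : T.natDegree = 2)
    (hsT : SqM T (C m * M0)) (ht0 : eval t0 T ≠ 0) (hy0 : m * eval t0 M0 = y0 * y0) :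
    ∃ (Y B : F[X]) (l : F), l ≠ 0 ∧ B.Monic ∧ B.natDegree ≤ 1 ∧
      Y ^ 2 - C m * M0 = C l * (T * (X - C t0) * B) ∧ (B.natDegree = 0 → IsSquare m) := by
  obtain ⟨s, u, hu⟩ := hsT
  set Y0 := s %ₘ T with hY0
  have hs0 : Y0 + T * (s /ₘ T) = s := modByMonic_add_div s T
  have hY0d : Y0.natDegree < 2 := by
    rw [← hTd]
    exact natDegree_modByMonic_lt s hT (by
      intro h; rw [h, natDegree_one] at hTd; omega)
  set c := (y0 - eval t0 Y0) / eval t0 T with hc
  set Y := Y0 + C c * T with hY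
  have hYd : Y.natDegree ≤ 2 := by
    refine (natDegree_add_le _ _).trans (max_le hY0d.le ?_)
    exact (natDegree_C_mul_le _ _).trans hTd.le
  have hYt : eval t0 Y = y0 := by
    rw [hY, eval_add, eval_mul, eval_C, hc, div_mul_cancel₀ _ ht0]
    ring
  have hTY : T ∣ Y ^ 2 - C m * M0 := by
    have h1 : Y ^ 2 - C m * M0 = (Y - s) * (Y + s) - (C m * M0 - s ^ 2) := by ring
    rw [h1, hu]
    refine dvd_sub (Dvd.dvd.mul_right ?_ _) (dvd_mul_right _ _)
    refine ⟨C c - s /ₘ T, ?_⟩
    have h3 : Y - s = Y0 + C c * T - (Y0 + T * (s /ₘ T)) := by rw [hs0]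
    rw [h3]
    ring
  have hXY : (X - C t0) ∣ Y ^ 2 - C m * M0 := by
    rw [dvd_iff_isRoot, IsRoot.def, eval_sub, eval_pow, hYt, eval_mul, eval_C, hy0]
    ring
  obtain ⟨W, hW⟩ := (cop_X_sub_C ht0).mul_dvd hTY hXY
  have hYM : Y ^ 2 - C m * M0 ≠ 0 := by
    intro h0
    have h1 : Y * Y = C m * M0 := by
      have h2 := sub_eq_zero.1 h0
      rw [← sq]; exact h2
    have h2 : Y * Y ∣ M0 := by
      rw [h1]
      refine ⟨C m⁻¹, ?_⟩
      have h3 : (C m : F[X]) * C m⁻¹ = 1 := by
        rw [← C_mul, mul_inv_cancel₀ hm, C_1]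
      calc M0 = M0 * 1 := (mul_one _).symm
        _ = M0 * (C m * C m⁻¹) := by rw [h3]
        _ = C m * M0 * C m⁻¹ := by ring
    have h3 : IsUnit Y := hMs.squarefree Y h2
    have h4 : (Y * Y).natDegree = 0 := natDegree_eq_zero_of_isUnit (h3.mul h3)
    rw [h1, natDegree_C_mul hm, hMd] at h4
    omega
  have hW0 : W ≠ 0 := by
    rintro rfl
    rw [mul_zero] at hW
    exact hYM hW
  have hTX : (T * (X - C t0)).Monic := hT.mul (monic_X_sub_C t0)
  have hTXd : (T * (X - C t0)).natDegree = 3 := by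
    rw [hT.natDegree_mul (monic_X_sub_C t0), hTd, natDegree_X_sub_C]
  have hWd : W.natDegree ≤ 1 := by
    have h1 : (Y ^ 2 - C m * M0).natDegree ≤ 4 := by
      refine (natDegree_sub_le _ _).trans (max_le ?_ ?_)
      · exact (natDegree_pow_le).trans (by omega)
      · rw [natDegree_C_mul hm, hMd]
    rw [hW, natDegree_mul hTX.ne_zero hW0, hTXd] at h1
    omega
  have hl : W.leadingCoeff ≠ 0 := leadingCoeff_ne_zero.2 hW0
  have hBm : (C W.leadingCoeff⁻¹ * W).Monic :=
    monic_C_mul_of_mul_leadingCoeff_eq_one (inv_mul_cancel₀ hl)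
  have hBd : (C W.leadingCoeff⁻¹ * W).natDegree = W.natDegree :=
    natDegree_C_mul (inv_ne_zero hl)
  have hfac : Y ^ 2 - C m * M0 =
      C W.leadingCoeff * (T * (X - C t0) * (C W.leadingCoeff⁻¹ * W)) := by
    have h3 : (C W.leadingCoeff : F[X]) * C W.leadingCoeff⁻¹ = 1 := by
      rw [← C_mul, mul_inv_cancel₀ hl, C_1]
    calc Y ^ 2 - C m * M0 = T * (X - C t0) * W * 1 := by rw [mul_one]; exact hW
      _ = T * (X - C t0) * W * (C W.leadingCoeff * C W.leadingCoeff⁻¹) := by rw [h3]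
      _ = _ := by ring
  refine ⟨Y, C W.leadingCoeff⁻¹ * W, W.leadingCoeff, hl, hBm, hBd ▸ hWd, hfac, ?_⟩
  intro hB0
  have hB1 : C W.leadingCoeff⁻¹ * W = 1 := hBm.natDegree_eq_zero.1 hB0
  rw [hB1, mul_one] at hfac
  have h4 := congrArg (fun p : F[X] => p.coeff 4) hfac
  simp only [coeff_sub, coeff_C_mul] at h4
  have h5 : (T * (X - C t0)).coeff 4 = 0 := coeff_eq_zero_of_natDegree_lt (by omega)
  have h6 : M0.coeff 4 = 1 := by
    rw [← hMd]; exact hM.coeff_natDegree
  have h7 : (Y ^ 2).coeff 4 = (Y.coeff 2) ^ 2 := coeff_pow_of_natDegree_le hYd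
  rw [h5, h6, h7, mul_zero, mul_one, sub_eq_zero] at h4
  exact ⟨Y.coeff 2, by rw [← h4, sq]⟩

theorem monic_one {T : F[X]} (hT : T.Monic) (hTd : T.natDegree = 1) :
    ∃ t : F, T = X - C t := by
  refine ⟨-T.coeff 0, ?_⟩
  have h := hT.eq_X_add_C hTd
  rw [C_neg, sub_neg_eq_add]
  exact h

end aux

theorem pf_DIV (hRED : T_RED) (hPTB : T_PTB) (hNTR : T_NTR) (hCLC : T_CLC) (hCAD : T_CAD)
    (hIV : T_IV) (hLAL : T_LAL) (hEU9 : T_EU9) : T_DIV := by
  intro F _ _ _ _ m M0 A B R U hm hM hMs hMd hA hB hR hU hf hsep hcop hsq hnn hram hex hcst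
  have hLA : LA F := hLAL F
  have h2 : (2 : F) ≠ 0 := hLA.1
  obtain ⟨htw, hun, v, hv, hvne⟩ := la_iv hIV hLA
  have hcopM : IsCoprime (A * B) (C m * M0) := C_mul_cop hm hcop
  have cad := hCAD F hLA A B R U (C m * M0) hA hB hR hU hf hsep hcopM hsq hnn
  have hRA : R ∣ A := ⟨U, hf⟩
  have hRs : R.Separable := hsep.of_mul_left.of_dvd hRA
  have hRc : IsCoprime R (C m * M0) := (hcopM.of_mul_left_left).of_isCoprime_of_dvd_left hRA
  have hq : I2 (qc A B (C m * M0)) := ((hEU9 F h2).2.1 A B (C m * M0) hA hsep.isCoprime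
    hcopM.of_mul_left_left).2 hnn
  have hRT : ∀ T : F[X], SqM T (C m * M0) → IsCoprime R T := fun T hT =>
    cop_of_ram hR.ne_zero hram hT
  have hsX : ∀ t : F, IsSquare (m * eval t M0) → SqM (X - C t) (C m * M0) := by
    rintro t ⟨r, hr⟩
    refine ⟨C r, ?_⟩
    rw [dvd_iff_isRoot, IsRoot.def, eval_sub, eval_pow, eval_mul, eval_C, eval_C, hr]
    ring
  obtain ⟨w, hw⟩ : ∃ w, w = v - qc A B (C m * M0) := ⟨_, rfl⟩
  have hqw : qc A B (C m * M0) + w = v := by rw [hw]; abel
  have hww : w + w = 0 := by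
    have h3 : w + w = (v + v) - (qc A B (C m * M0) + qc A B (C m * M0)) := by rw [hw]; abel
    rw [h3, htw v hv, htw _ hq, sub_zero]
  have hpt : ∀ t : F, IsSquare (m * eval t M0) → sy R (C m * M0) (X - C t) = w := by
    intro t ht
    have h3 := hun _ _ (cad.2.1 (X - C t) (hRT _ (hsX t ht))) hv (hcst t ht) hvne
    unfold cc at h3
    rw [natDegree_X_sub_C, one_smul, ← hqw] at h3
    exact add_left_cancel h3
  have hsqm : IsSquare m → w = 0 := by
    intro hs
    obtain ⟨b, hb⟩ := (hCLC F A B R (C m * M0) hR hRs hRc cad.1).2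
    obtain ⟨t, ht1, -, ht3⟩ := (hPTB F m M0 hm hM hMs hMd).2 hs b
    have h3 := hcst t ht3
    rw [(hb t ht1).2] at h3
    rw [hw, hun _ _ hq hv h3 hvne, sub_self]
  have hev : ∀ n : ℕ, Even n → ∀ x : WG F, x + x = 0 → n • x = 0 := by
    rintro n ⟨k, rfl⟩ x hx
    rw [add_smul, ← smul_add, hx, smul_zero]
  have key : ∀ n : ℕ, ∀ T : F[X], T.natDegree = n → T.Monic → SqM T (C m * M0) →
      sy R (C m * M0) T = T.natDegree • w := by
    intro n
    induction n using Nat.strong_induction_on with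
    | _ n ih =>
      intro T hTn hT hsT
      rcases Nat.lt_or_ge n 3 with hn | hn
      · interval_cases n
        · have h1 : T = 1 := hT.natDegree_eq_zero.1 hTn
          rw [h1, natDegree_one, zero_smul]
          exact sy_one _ _
        · obtain ⟨t, rfl⟩ := monic_one hT hTn
          have h3 := sq_of_sqM hsT (t := t) (by rw [eval_sub, eval_X, eval_C, sub_self])
          rw [eval_mul, eval_C] at h3
          rw [hTn, one_smul]
          exact hpt t h3
        · obtain ⟨t1, ht1⟩ := hex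
          obtain ⟨Z, hZ⟩ := exists_finset hT.ne_zero
          obtain ⟨t0, ht0Z, -, -, y0, hy0⟩ := (hPTB F m M0 hm hM hMs hMd).1 t1 1 one_pos ht1 Z
          have hsq0 : IsSquare (m * eval t0 M0) := ⟨y0, hy0⟩
          obtain ⟨Y, B', l, hl, hB', hB'd, hY, hsqm'⟩ := curve_two hm hM hMs hMd hT hTn hsT
            (hZ t0 ht0Z) hy0
          obtain ⟨hco, hz⟩ := hNTR F hLA R (C m * M0) Y _ l hR hRs hRc hram cad.1 hl hY
          have hX0 := monic_X_sub_C t0
          rw [sy_mul hCAD hLA hA hB hR hU hf hsep hcopM hsq hnn (hT.mul hX0) hB'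
              hco.of_mul_right_left hco.of_mul_right_right,
            sy_mul hCAD hLA hA hB hR hU hf hsep hcopM hsq hnn hT hX0
              hco.of_mul_right_left.of_mul_right_left hco.of_mul_right_left.of_mul_right_right,
            hpt t0 hsq0] at hz
          rw [hTn, two_smul, hww]
          rcases Nat.eq_zero_or_pos B'.natDegree with h0 | h0
          · rw [hB'.natDegree_eq_zero.1 h0, sy_one, hsqm (hsqm' h0), add_zero, add_zero] at hz
            exact hz
          · obtain ⟨t2, ht2⟩ := monic_one hB' (by omega)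
            have hsB : SqM B' (C m * M0) := by
              refine ⟨Y, -(C l * (T * (X - C t0))), ?_⟩
              have h3 : C m * M0 - Y ^ 2 = -(Y ^ 2 - C m * M0) := by ring
              rw [h3, hY]
              ring
            have h3 := sq_of_sqM hsB (t := t2) (by rw [ht2, eval_sub, eval_X, eval_C, sub_self])
            rw [eval_mul, eval_C] at h3
            rw [ht2, hpt t2 h3, add_assoc, hww, add_zero] at hz
            exact hz
      · obtain ⟨Y, B', l, hl, hB', hBd, hYB, hpar⟩ := hRED F h2 m M0 T hm hM hMs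
          hMd hT hsT (hTn ▸ hn)
        have hsB : SqM B' (C m * M0) := by
          refine ⟨Y, -(C l * T), ?_⟩
          have h3 : C m * M0 - Y ^ 2 = -(C l * (T * B')) := by rw [← hYB]; ring
          rw [h3]; ring
        have hB0 := ih B'.natDegree (hTn ▸ hBd) B' rfl hB' hsB
        obtain ⟨hco, hz⟩ := hNTR F hLA R (C m * M0) Y (T * B') l hR hRs hRc hram cad.1 hl hYB
        rw [sy_mul hCAD hLA hA hB hR hU hf hsep hcopM hsq hnn hT hB' hco.of_mul_right_left
          hco.of_mul_right_right, hB0] at hz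
        by_cases hs : IsSquare m
        · rw [hsqm hs, smul_zero, add_zero] at hz
          rw [hsqm hs, smul_zero]
          exact hz
        · have h3 := hev _ (hpar hs) w hww
          rw [add_smul] at h3
          exact add_right_cancel (hz.trans h3.symm)
  intro T hT hsT
  have hcT : cc A B R (C m * M0) T = T.natDegree • v := by
    unfold cc
    rw [key _ T rfl hT hsT, ← smul_add, hqw]
  refine ⟨hRT T hsT, ?_, ?_⟩
  · rintro ⟨k, hk⟩
    rw [hcT, hk, add_smul, one_smul, hev _ (even_two_mul k) v (htw v hv), zero_add]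
    exact hvne
  · intro he
    rw [hcT]
    exact hev _ he v (htw v hv)

end Pool.Agent.H91.WT
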