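import Pool.Agent.H91.WT.Lib

/-! E42. The classes over the quadratic extension. -/

set_option autoImplicit false

open Polynomial Matrix Pool.Agent.H63.WT

namespace Pool.Agent.H91.WT

/-- four linear factors -/
theorem sy_four {F : Type} [Field F] [CharZero F] (hCAD : T_CAD) (hLA : LA F)
    {A B R U M : F[X]} (hA : A.Monic)
    (hB : B.Monic) (hR : R.Monic) (hU : U.Monic) (hf : A = R * U) (hs : (A * B).Separable)
    (hc : IsCoprime (A * B) M) (hsq : SqM U M) (hn : IsSquare (nn A M)) {a b c d : F}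
    (h : IsCoprime R ((X - C a) * (X - C b) * (X - C c) * (X - C d))) :
    sy R M ((X - C a) * (X - C b) * (X - C c) * (X - C d)) =
      sy R M (X - C a) + sy R M (X - C b) + sy R M (X - C c) + sy R M (X - C d) := by
  have h1 := h.of_mul_right_left
  have h2 := h1.of_mul_right_left
  have ma := monic_X_sub_C a
  have mb := monic_X_sub_C b
  have mc := monic_X_sub_C c
  have md := monic_X_sub_C d
  rw [sy_mul hCAD hLA hA hB hR hU hf hs hc hsq hn ((ma.mul mb).mul mc) md h1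
      h.of_mul_right_right,
    sy_mul hCAD hLA hA hB hR hU hf hs hc hsq hn (ma.mul mb) mc h2 h1.of_mul_right_right,
    sy_mul hCAD hLA hA hB hR hU hf hs hc hsq hn ma mb h2.of_mul_right_left
      h2.of_mul_right_right]

theorem inj3 {E : Type} {a b c : E} (h1 : b ≠ a) (h2 : b ≠ c) (h3 : c ≠ a) :
    Function.Injective (![a, b, c] : Fin 3 → E) := by
  intro i j hij
  fin_cases i <;> fin_cases j
  · rfl
  · exact absurd hij.symm h1
  · exact absurd hij.symm h3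
  · exact absurd hij h1
  · rfl
  · exact absurd hij h2
  · exact absurd hij h3
  · exact absurd hij.symm h2
  · rfl

theorem pf_E42 (hEU5 : T_EU5) (hFWD : T_FWD) (hREV : T_REV) (hRAM : T_RAM) (hCAD : T_CAD)
    (hFPT : T_FPT) (hNTR : T_NTR) (hLOC : T_LOC) (hSYF : T_SYF) (hLAL : T_LAL) (hEU9 : T_EU9)
    (hNNR : T_NNR) (hGDT : T_GDT) : T_E42 := by
  classical
  intro E _ _ _ _ m M0 P1 P2 hm hM hMs hMd h1 h2' hsep hcop hodd2 hoddP hnn1 hnn2 hNCZ hon2
    honP hvv t htP htM hts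
  have hLA : LA E := hLAL E
  have h2 : (2 : E) ≠ 0 := hLA.1
  by_contra hne
  have hne2 : sy P2 (C m * M0) (X - C t) = 0 := by
    by_contra h
    exact hvv t htP ⟨hne, h⟩
  have hcopM : IsCoprime (P1 * P2) (C m * M0) := C_mul_cop hm hcop
  have hc2 : IsCoprime P2 M0 := hcop.of_mul_left_right
  -- values of the forms
  have hn2 : IsSquare (m * nn M0 P2) := sq_odd hGDT hNNR hm hM hMd h2' hodd2 hnn2
  have hnP : IsSquare (m * nn M0 (P1 * P2)) := by
    refine sq_odd hGDT hNNR hm hM hMd (h1.mul h2') hoddP ?_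
    rw [(hNNR E P1 P2 h1 h2').1]
    exact hnn1.mul hnn2
  have hval : ∀ A : E[X], A.Monic → IsCoprime A M0 → Odd A.natDegree →
      on 1 - on m + G m M0 A = 0 → ∀ u : E, eval u A ≠ 0 → eval u M0 ≠ 0 →
      IsSquare (m * eval u M0) → sy A (C m * M0) (X - C u) = -G m M0 (A * (X - C u)) := by
    intro A hA hAc hAo hAz u hu1 hu2 hu3
    rw [hEU5 E h2 m M0 A u hm hM hMd hA hAc hAo hu1 hu2 hu3, hAz, zero_sub]
  have hnn : ∀ A : E[X], IsSquare (m * nn M0 A) → ∀ u : E, IsSquare (m * eval u M0) →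
      IsSquare (nn M0 (A * (X - C u))) := by
    intro A hA u hu
    rw [nn_mul hGDT hM, nn_X_sub_C hGDT hNNR hM hMd]
    refine sq_cancel hm ?_
    have h3 : nn M0 A * eval u M0 * m ^ 2 = m * nn M0 A * (m * eval u M0) := by ring
    rw [h3]
    exact hA.mul hu
  have hG : ∀ A : E[X], IsCoprime A M0 → IsSquare (m * nn M0 A) → ∀ u : E, eval u M0 ≠ 0 →
      IsSquare (m * eval u M0) →
      (G m M0 (A * (X - C u)) = 0 ↔ ¬ Anis (gm M0 (A * (X - C u)))) ∧
      (G m M0 (A * (X - C u)) = 0 ↔ Met (gm M0 (A * (X - C u)))) := by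
    intro A hAc hA u hu0 hu
    exact ((hEU9 E h2).1 m M0 (A * (X - C u)) hm hM hMd
      (hAc.symm.mul_right (cop_X_sub_C hu0))).2 (hnn A hA u hu)
  have hsum : ∀ u : E, eval u (P1 * P2) ≠ 0 → sy (P1 * P2) (C m * M0) (X - C u) =
      sy P1 (C m * M0) (X - C u) + sy P2 (C m * M0) (X - C u) := by
    intro u hu
    exact hSYF E hLA P1 P2 (C m * M0) (X - C u) h1 h2' hsep hcopM (cop_X_sub_C hu)
  have hu1 : ∀ u : E, eval u (P1 * P2) ≠ 0 → eval u P1 ≠ 0 := by
    intro u hu; rw [eval_mul] at hu; exact left_ne_zero_of_mul hu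
  have hu2 : ∀ u : E, eval u (P1 * P2) ≠ 0 → eval u P2 ≠ 0 := by
    intro u hu; rw [eval_mul] at hu; exact right_ne_zero_of_mul hu
  have hPne : P1 * P2 ≠ 0 := (h1.mul h2').ne_zero
  obtain ⟨Z, hZ⟩ := exists_finset hPne
  -- the point tb
  have hAt : Anis (gm M0 (P1 * P2 * (X - C t))) := by
    by_contra hA
    have h3 := ((hG (P1 * P2) hcop hnP t htM hts).1).2 hA
    have h4 := hval (P1 * P2) (h1.mul h2') hcop hoddP honP t htP htM hts
    rw [hsum t htP, hne2, add_zero, h3, neg_zero] at h4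
    exact hne h4
  obtain ⟨tb, htbZ, htb0, htbM, htbs⟩ := hFWD E M0 (P1 * P2) t hM hMs hMd hcop.symm htM hAt
    (insert t Z)
  have htbne : tb ≠ t := fun h => htbZ (by rw [h]; exact Finset.mem_insert_self _ _)
  have htbP : eval tb (P1 * P2) ≠ 0 := hZ tb (fun h => htbZ (Finset.mem_insert_of_mem h))
  have hsq' : ∀ u : E, IsSquare (eval u M0 * eval t M0) → IsSquare (m * eval u M0) := by
    intro u hu
    refine sq_cancel htM ?_
    have h3 : m * eval u M0 * eval t M0 ^ 2 = m * eval t M0 * (eval u M0 * eval t M0) := by ring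
    rw [h3]
    exact hts.mul hu
  have htbs' := hsq' tb htbs
  have hb : sy P1 (C m * M0) (X - C tb) = 0 ∧ sy P2 (C m * M0) (X - C tb) = 0 := by
    have h3 := ((hG (P1 * P2) hcop hnP tb htb0 htbs').2).2 htbM
    have h4 := hval (P1 * P2) (h1.mul h2') hcop hoddP honP tb htbP htb0 htbs'
    rw [hsum tb htbP, h3, neg_zero] at h4
    have h5 : sy P1 (C m * M0) (X - C tb) = 0 := by
      by_contra h5
      refine hvv tb htbP ⟨h5, fun h6 => ?_⟩
      rw [h6, add_zero] at h4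
      exact h5 h4
    refine ⟨h5, ?_⟩
    rw [h5, zero_add] at h4
    exact h4
  -- the point ta
  obtain ⟨ta, htaZ, hta0, htaA, htas⟩ := hREV E M0 P2 t hM hMs hMd hc2.symm htM
    (hnn P2 hn2 t hts) hNCZ (insert t (insert tb Z))
  have htane : ta ≠ t := fun h => htaZ (by rw [h]; exact Finset.mem_insert_self _ _)
  have htanb : ta ≠ tb := fun h => htaZ (by
    rw [h]; exact Finset.mem_insert_of_mem (Finset.mem_insert_self _ _))
  have htaP : eval ta (P1 * P2) ≠ 0 := hZ ta (fun h => htaZ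
    (Finset.mem_insert_of_mem (Finset.mem_insert_of_mem h)))
  have htas' := hsq' ta htas
  have ha2 : sy P2 (C m * M0) (X - C ta) ≠ 0 := by
    rw [hval P2 h2' hc2 hodd2 hon2 ta (hu2 ta htaP) hta0 htas', neg_ne_zero]
    intro h3
    exact ((hG P2 hc2 hn2 ta hta0 htas').1).1 h3 htaA
  have ha1 : sy P1 (C m * M0) (X - C ta) = 0 := by
    by_contra h
    exact hvv ta htaP ⟨h, ha2⟩
  -- ramified parts
  have hcP1 : IsCoprime P1 (C m * M0) := hcopM.of_mul_left_left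
  have hcP2 : IsCoprime P2 (C m * M0) := hcopM.of_mul_left_right
  obtain ⟨R1, U1, hR1, hU1, hf1, hsq1, hram1⟩ := hRAM E h2 P1 (C m * M0) h1
    hsep.of_mul_left hcP1
  obtain ⟨R2, U2, hR2, hU2, hf2, hsq2, hram2⟩ := hRAM E h2 P2 (C m * M0) h2'
    hsep.of_mul_right hcP2
  have hsep' : (P2 * P1).Separable := by rw [mul_comm]; exact hsep
  have hcop' : IsCoprime (P2 * P1) (C m * M0) := by rw [mul_comm]; exact hcopM
  have cad1 := hCAD E hLA P1 P2 R1 U1 (C m * M0) h1 h2' hR1 hU1 hf1 hsep hcopM hsq1 hnn1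
  have cad2 := hCAD E hLA P2 P1 R2 U2 (C m * M0) h2' h1 hR2 hU2 hf2 hsep' hcop' hsq2 hnn2
  have hR1P : R1 ∣ P1 := ⟨U1, hf1⟩
  have hR2P : R2 ∣ P2 := ⟨U2, hf2⟩
  have hs1 : R1.Separable := hsep.of_mul_left.of_dvd hR1P
  have hs2 : R2.Separable := hsep.of_mul_right.of_dvd hR2P
  have hc1R : IsCoprime R1 (C m * M0) := hcP1.of_isCoprime_of_dvd_left hR1P
  have hc2R : IsCoprime R2 (C m * M0) := hcP2.of_isCoprime_of_dvd_left hR2P
  have e1 : ∀ u : E, eval u (P1 * P2) ≠ 0 →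
      sy P1 (C m * M0) (X - C u) = sy R1 (C m * M0) (X - C u) := fun u hu =>
    cad1.2.2.2 _ (cop_X_sub_C (hu1 u hu))
  have e2 : ∀ u : E, eval u (P1 * P2) ≠ 0 →
      sy P2 (C m * M0) (X - C u) = sy R2 (C m * M0) (X - C u) := fun u hu =>
    cad2.2.2.2 _ (cop_X_sub_C (hu2 u hu))
  -- the fourth point
  have hy : ∀ i : Fin 3, ∃ r : E, r ≠ 0 ∧ m * eval ((![t, ta, tb] : Fin 3 → E) i) M0 = r ^ 2 := by
    have hgen : ∀ u : E, eval u M0 ≠ 0 → IsSquare (m * eval u M0) →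
        ∃ r : E, r ≠ 0 ∧ m * eval u M0 = r ^ 2 := by
      intro u hu ⟨r, hr⟩
      refine ⟨r, ?_, by rw [hr, sq]⟩
      rintro rfl
      rw [mul_zero] at hr
      exact (mul_ne_zero hm hu) hr
    intro i
    fin_cases i
    · exact hgen t htM hts
    · exact hgen ta hta0 htas'
    · exact hgen tb htb0 htbs'
  choose y hy0 hy1 using hy
  have hinj : Function.Injective (![t, ta, tb] : Fin 3 → E) := inj3 htane htanb htbne
  obtain ⟨Y, l, s, hl, hY⟩ := hFPT E h2 m M0 ![t, ta, tb] y hm hM hMd hinj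
    (fun i => ⟨hy0 i, hy1 i⟩)
  have hY' : Y ^ 2 - C m * M0 = C l * ((X - C t) * (X - C ta) * (X - C tb) * (X - C s)) := by
    rw [hY]; rfl
  obtain ⟨hco1, hz1⟩ := hNTR E hLA R1 (C m * M0) Y _ l hR1 hs1 hc1R hram1 cad1.1 hl hY'
  obtain ⟨hco2, hz2⟩ := hNTR E hLA R2 (C m * M0) Y _ l hR2 hs2 hc2R hram2 cad2.1 hl hY'
  rw [sy_four hCAD hLA h1 h2' hR1 hU1 hf1 hsep hcopM hsq1 hnn1 hco1, ← e1 t htP, ← e1 ta htaP,
    ← e1 tb htbP, ha1, hb.1, add_zero, add_zero] at hz1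
  rw [sy_four hCAD hLA h2' h1 hR2 hU2 hf2 hsep' hcop' hsq2 hnn2 hco2, ← e2 t htP, ← e2 ta htaP,
    ← e2 tb htbP, hne2, hb.2, zero_add, add_zero] at hz2
  have hsR1 : sy R1 (C m * M0) (X - C s) ≠ 0 := by
    intro h; rw [h, add_zero] at hz1; exact hne hz1
  have hsR2 : sy R2 (C m * M0) (X - C s) ≠ 0 := by
    intro h; rw [h, add_zero] at hz2; exact ha2 hz2
  obtain ⟨ε1, hε1, hl1⟩ := sy_loc hLOC hR1 hc1R (eval_ne_of_cop hco1.of_mul_right_right)
  obtain ⟨ε2, hε2, hl2⟩ := sy_loc hLOC hR2 hc2R (eval_ne_of_cop hco2.of_mul_right_right)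
  obtain ⟨s', hs'Z, hs'⟩ := near_notMem s (lt_min hε1 hε2) Z
  have hs'P := hZ s' hs'Z
  refine hvv s' hs'P ⟨?_, ?_⟩
  · rw [e1 s' hs'P, (hl1 s' (lt_of_lt_of_le hs' (min_le_left _ _))).2]
    exact hsR1
  · rw [e2 s' hs'P, (hl2 s' (lt_of_lt_of_le hs' (min_le_right _ _))).2]
    exact hsR2

end Pool.Agent.H91.WT
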