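import Pool.Agent.H91.WT.Lib

/-! I2AP. Index two: the class of the even part vanishes at the points over quadratic
extensions. -/

set_option autoImplicit false

open Polynomial Matrix Pool.Agent.H63.WT

namespace Pool.Agent.H91.WT

theorem pf_I2AP (hE42 : T_E42) (hLNE : T_LNE) (hPRJ : T_PRJ) (hQDZ : T_QDZ) (hBCH : T_BCH)
    (hBCS : T_BCS) (hEU9 : T_EU9) (hNNR : T_NNR) (hGMM : T_GMM) (hGDT : T_GDT) (hCAD : T_CAD)
    (hSYI : T_SYI) (hLAL : T_LAL) (hIV : T_IV) : T_I2A' := by
  intro F E _ _ _ _ _ _ _ _ _ hfr m M0 P1 P2 R1 R2 U1 U2 hD hF hm hnt t htP htM hts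
  have hLA : LA F := hLAL F
  have hLAE : LA E := hLAL E
  have h2 : (2 : F) ≠ 0 := hLA.1
  obtain ⟨f, hf⟩ := hBCH F E h2 (algebraMap F E)
  have hcop1 := Dt_cop hD
  have hmE : algebraMap F E m ≠ 0 := by
    rw [Ne, map_eq_zero]; exact hD.m0
  have hn1 : IsSquare (nn M0 P1) :=
    sq_even hGDT hNNR hD.m0 hD.mon0 hD.deg0 hD.mon1 hD.even1 hD.nn1
  have hn2 : IsSquare (m * nn M0 P2) :=
    sq_odd hGDT hNNR hD.m0 hD.mon0 hD.deg0 hD.mon2 hD.odd2 hD.nn2
  have hc2 : IsCoprime M0 P2 := (hD.cop.of_mul_left_right).symm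
  have hcP : IsCoprime M0 (P1 * P2) := hD.cop.symm
  have hnP : IsSquare (m * nn M0 (P1 * P2)) := by
    rw [nn_mul hGDT hD.mon0]
    have h3 : m * (nn M0 P1 * nn M0 P2) = nn M0 P1 * (m * nn M0 P2) := by ring
    rw [h3]
    exact hn1.mul hn2
  have hbc : ∀ A : F[X], IsCoprime M0 A → IsSquare (m * nn M0 A) →
      on 1 - on (algebraMap F E m) + G (algebraMap F E m) (M0.map (algebraMap F E))
        (A.map (algebraMap F E)) = 0 := by
    intro A hcA hsA
    have hI : I2 (on 1 - on m + G m M0 A) :=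
      (hEU9 F h2).2.2 m M0 A hD.m0 hD.mon0 hD.deg0 hcA hsA
    have hz := hQDZ F E hLA hfr f hf _ hI
    rw [map_add, map_sub, f_on hf one_ne_zero, f_on hf hD.m0, map_one] at hz
    unfold G at hz ⊢
    rw [hBCS F E h2 f hf M0 (C m * A) hD.mon0 (C_mul_cop hD.m0 hcA), Polynomial.map_mul,
      map_C] at hz
    exact hz
  have hNCZ : NCZ (M0.map (algebraMap F E)) (P2.map (algebraMap F E)) :=
    hLNE F E h2 hfr m M0 P2 hD.m0 hD.mon0 hD.sep0 hD.deg0 hc2 hn2 hm hnt
  have hMm : (C m * M0).map (algebraMap F E) =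
      C (algebraMap F E m) * M0.map (algebraMap F E) := by
    rw [Polynomial.map_mul, map_C]
  have hPm : (P1 * P2).map (algebraMap F E) =
      P1.map (algebraMap F E) * P2.map (algebraMap F E) := Polynomial.map_mul _
  have hnE : ∀ A : F[X], A.Monic → IsSquare (nn A (C m * M0)) →
      IsSquare (nn (A.map (algebraMap F E))
        (C (algebraMap F E m) * M0.map (algebraMap F E))) := by
    intro A hA hs
    rw [← hMm, (hGMM F E (algebraMap F E) A (C m * M0) hA).1]
    exact hs.map _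
  have hcP1 : IsCoprime P1 (C m * M0) := hcop1.of_mul_left_left
  have hcP2 : IsCoprime P2 (C m * M0) := hcop1.of_mul_left_right
  have hvv : ∀ t' : E, eval t' (P1.map (algebraMap F E) * P2.map (algebraMap F E)) ≠ 0 →
      ¬ (sy (P1.map (algebraMap F E)) (C (algebraMap F E m) * M0.map (algebraMap F E))
          (X - C t') ≠ 0 ∧
        sy (P2.map (algebraMap F E)) (C (algebraMap F E m) * M0.map (algebraMap F E))
          (X - C t') ≠ 0) := by
    intro t' ht'
    rw [eval_mul, eval_map_algebraMap, eval_map_algebraMap] at ht'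
    have ht1 : aeval t' P1 ≠ 0 := left_ne_zero_of_mul ht'
    have ht2 : aeval t' P2 ≠ 0 := right_ne_zero_of_mul ht'
    rintro ⟨ha, hb⟩
    rw [← hMm] at ha hb
    by_cases hr : t' ∈ (algebraMap F E).range
    · obtain ⟨s, rfl⟩ := hr
      have hs1 : eval s P1 ≠ 0 := by
        intro h0
        rw [aeval_algebraMap_apply, aeval_def, eval₂_eq_eval_map, Algebra.algebraMap_self,
          Polynomial.map_id, h0, map_zero] at ht1
        exact ht1 rfl
      have hcx := cop_X_sub_C hs1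
      have h4 := f_sy hBCS h2 hf hD.mon1 hcP1 hcx
      rw [hQDZ F E hLA hfr f hf _ (hSYI F h2 P1 (C m * M0) (X - C s) hD.mon1 hcP1 hcx),
        Polynomial.map_sub, map_X, map_C] at h4
      exact ha h4.symm
    · haveI : FiniteDimensional F E := Module.finite_of_finrank_pos (by rw [hfr]; norm_num)
      have hint : IsIntegral F t' := Algebra.IsIntegral.isIntegral t'
      have hTm : (minpoly F t').Monic := minpoly.monic hint
      have hTi : Irreducible (minpoly F t') := minpoly.irreducible hint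
      have hTr : aeval t' (minpoly F t') = 0 := minpoly.aeval F t'
      have hTd : (minpoly F t').natDegree = 2 := by
        have h5 := minpoly.degree_dvd (K := F) hint
        rw [hfr] at h5
        rcases (Nat.dvd_prime Nat.prime_two).1 h5 with h6 | h6
        · exact absurd (minpoly.natDegree_eq_one_iff.1 h6) hr
        · exact h6
      have hc1 : IsCoprime P1 (minpoly F t') := cop_of_aeval_ne hTi hTr ht1
      have hc2' : IsCoprime P2 (minpoly F t') := cop_of_aeval_ne hTi hTr ht2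
      have hs1 : sy P1 (C m * M0) (minpoly F t') ≠ 0 := fun h0 => ha
        ((hPRJ F E hLA hfr (minpoly F t') t' hTm hTd hTi hTr P1 (C m * M0) hD.mon1 hc1 hcP1
          hD.nn1).1 h0)
      have hs2 : sy P2 (C m * M0) (minpoly F t') ≠ 0 := fun h0 => hb
        ((hPRJ F E hLA hfr (minpoly F t') t' hTm hTd hTi hTr P2 (C m * M0) hD.mon2 hc2' hcP2
          hD.nn2).1 h0)
      have hsep' : (P2 * P1).Separable := by rw [mul_comm]; exact hD.sep
      have hcop' : IsCoprime (P2 * P1) (C m * M0) := by rw [mul_comm]; exact hcop1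
      rw [(hCAD F hLA P1 P2 R1 U1 (C m * M0) hD.mon1 hD.mon2 hD.monR1 hD.monU1 hD.fac1 hD.sep
        hcop1 hD.sq1 hD.nn1).2.2.2 _ hc1] at hs1
      rw [(hCAD F hLA P2 P1 R2 U2 (C m * M0) hD.mon2 hD.mon1 hD.monR2 hD.monU2 hD.fac2 hsep'
        hcop' hD.sq2 hD.nn2).2.2.2 _ hc2'] at hs2
      have h12 : IsCoprime P1 P2 := hD.sep.isCoprime
      have hq1 : I2 (qc P1 P2 (C m * M0)) :=
        ((hEU9 F h2).2.1 P1 P2 (C m * M0) hD.mon1 h12 hcP1).2 hD.nn1
      have hq2 : I2 (qc P2 P1 (C m * M0)) :=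
        ((hEU9 F h2).2.1 P2 P1 (C m * M0) hD.mon2 h12.symm hcP2).2 hD.nn2
      have htw := (la_iv hIV hLA).1
      refine (hF (minpoly F t') hTm hTi (hc1.mul_left hc2').symm).2 (by rw [hTd]; exact ⟨1, rfl⟩)
        ⟨?_, ?_⟩
      · unfold cc
        rw [hTd, two_smul, htw _ hq1, zero_add]
        exact hs1
      · unfold cc
        rw [hTd, two_smul, htw _ hq2, zero_add]
        exact hs2
  have hfin := hE42 E (algebraMap F E m) (M0.map (algebraMap F E)) (P1.map (algebraMap F E))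
    (P2.map (algebraMap F E)) hmE (hD.mon0.map _) hD.sep0.map (by rw [natDegree_map, hD.deg0])
    (hD.mon1.map _) (hD.mon2.map _) (by rw [← hPm]; exact hD.sep.map)
    (by rw [← hPm]; exact cop_map _ hD.cop) (by rw [natDegree_map]; exact hD.odd2)
    (by rw [← hPm, natDegree_map, hD.mon1.natDegree_mul hD.mon2]; exact hD.even1.add_odd hD.odd2)
    (hnE P1 hD.mon1 hD.nn1) (hnE P2 hD.mon2 hD.nn2) hNCZ (hbc P2 hc2 hn2)
    (by rw [← hPm]; exact hbc (P1 * P2) hcP hnP) hvv t
    (by rw [← hPm, eval_map_algebraMap]; exact htP) (by rw [eval_map_algebraMap]; exact htM)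
    (by rw [eval_map_algebraMap]; exact hts)
  rw [hMm]
  exact hfin

end Pool.Agent.H91.WT
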