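import Pool.Agent.H91.WT.Lib

/-! I2B. Index two: divisors of degree two. -/

set_option autoImplicit false

open Polynomial Matrix Pool.Agent.H63.WT

namespace Pool.Agent.H91.WT

theorem pf_I2B (hI2AP : T_I2A') (hPRJ : T_PRJ) (hEXT : T_EXT) (hPTB : T_PTB) (hLOC : T_LOC)
    (hCAD : T_CAD) (hSYF : T_SYF) (hSYC : T_SYC) (hLAL : T_LAL) : T_I2B := by
  intro F _ _ _ _ m M0 P1 P2 R1 R2 U1 U2 hD hF hm hnt T hT hT2 hsT
  have hLA : LA F := hLAL F
  have hcop1 := Dt_cop hD
  have hR1P : R1 ∣ P1 * P2 := by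
    rw [hD.fac1]; exact ⟨U1 * P2, by ring⟩
  have hU1P : R1 * U1 ∣ P1 * P2 := by
    rw [← hD.fac1]; exact dvd_mul_right _ _
  have hcR1 : IsCoprime R1 (C m * M0) := hcop1.of_isCoprime_of_dvd_left hR1P
  have hnR1 : IsSquare (nn R1 (C m * M0)) :=
    (hCAD F hLA P1 P2 R1 U1 (C m * M0) hD.mon1 hD.mon2 hD.monR1 hD.monU1 hD.fac1 hD.sep
      hcop1 hD.sq1 hD.nn1).1
  have hirr : Irreducible T := by
    refine (hT.irreducible_iff_roots_eq_zero_of_degree_le_three (by omega) (by omega)).2 ?_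
    refine Multiset.eq_zero_of_forall_notMem (fun t ht => ?_)
    have h3 := sq_of_sqM hsT ((mem_roots hT.ne_zero).1 ht)
    rw [eval_mul, eval_C] at h3
    exact hnt t h3
  obtain ⟨E, i1, i2, i3, i4, i5, t, hfd, hfr, ht, -⟩ := hEXT F T hirr
  have hfr2 : Module.finrank F E = 2 := by rw [hfr, hT2]
  have hLAE : LA E := hLAL E
  have hcRT : IsCoprime R1 T := cop_of_ram hD.monR1.ne_zero hD.ram1 hsT
  have hRt : eval t (R1.map (algebraMap F E)) ≠ 0 := by
    rw [eval_map_algebraMap]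
    exact aeval_ne_of_cop hcRT ht
  have hcE : IsCoprime (R1.map (algebraMap F E)) ((C m * M0).map (algebraMap F E)) :=
    cop_map _ hcR1
  obtain ⟨ε, hε, hloc⟩ := sy_loc hLOC (hD.monR1.map (algebraMap F E)) hcE hRt
  have hPne : (P1 * P2).map (algebraMap F E) ≠ 0 :=
    ((hD.mon1.mul hD.mon2).map (algebraMap F E)).ne_zero
  obtain ⟨Z, hZ⟩ := exists_finset hPne
  have hmE : algebraMap F E m ≠ 0 := by
    rw [Ne, map_eq_zero]; exact hD.m0
  have hsq : IsSquare (algebraMap F E m * eval t (M0.map (algebraMap F E))) := by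
    have h3 := sq_of_sqM (t := t) (sqM_map (algebraMap F E) hsT) (by
      rw [eval_map_algebraMap]; exact ht)
    rw [Polynomial.map_mul, map_C, eval_mul, eval_C] at h3
    exact h3
  obtain ⟨t', ht'Z, ht't, ht'0, ht's⟩ := (hPTB E (algebraMap F E m) (M0.map (algebraMap F E)) hmE
    (hD.mon0.map _) hD.sep0.map (by rw [natDegree_map, hD.deg0])).1 t ε hε hsq Z
  have hPt' : aeval t' (P1 * P2) ≠ 0 := by
    rw [← eval_map_algebraMap]; exact hZ t' ht'Z
  rw [eval_map_algebraMap] at ht'0 ht's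
  have hA := hI2AP F E hfr2 m M0 P1 P2 R1 R2 U1 U2 hD hF hm hnt t' hPt'
    (right_ne_zero_of_mul ht'0) ht's
  have hRU : P1.map (algebraMap F E) = R1.map (algebraMap F E) * U1.map (algebraMap F E) := by
    rw [hD.fac1, Polynomial.map_mul]
  have hsRU : (R1.map (algebraMap F E) * U1.map (algebraMap F E)).Separable := by
    rw [← Polynomial.map_mul]
    exact (hD.sep.of_dvd hU1P).map
  have hcRU : IsCoprime (R1.map (algebraMap F E) * U1.map (algebraMap F E))
      ((C m * M0).map (algebraMap F E)) := by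
    rw [← Polynomial.map_mul]
    exact cop_map _ (hcop1.of_isCoprime_of_dvd_left hU1P)
  have hcRX : IsCoprime (R1.map (algebraMap F E) * U1.map (algebraMap F E)) (X - C t') := by
    refine cop_X_sub_C ?_
    rw [← Polynomial.map_mul, ← hD.fac1, eval_map_algebraMap]
    rw [map_mul] at hPt'
    exact left_ne_zero_of_mul hPt'
  have hF1 := hSYF E hLAE (R1.map (algebraMap F E)) (U1.map (algebraMap F E))
    ((C m * M0).map (algebraMap F E)) (X - C t') (hD.monR1.map _) (hD.monU1.map _) hsRU hcRU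
    hcRX
  have hU0 : sy (U1.map (algebraMap F E)) ((C m * M0).map (algebraMap F E)) (X - C t') = 0 :=
    (hSYC E hLAE (U1.map (algebraMap F E)) ((C m * M0).map (algebraMap F E)) (hD.monU1.map _)
      hsRU.of_mul_right hcRU.of_mul_left_right).2.1 _ hcRX.of_mul_left_right
      (sqM_map _ hD.sq1)
  rw [hRU, hF1, hU0, add_zero] at hA
  rw [(hloc t' ht't).2] at hA
  exact (hPRJ F E hLA hfr2 T t hT hT2 hirr ht R1 (C m * M0) hD.monR1 hcRT hcR1 hnR1).2 hA

end Pool.Agent.H91.WT
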