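import Pool.Agent.H91.WT.Lib

/-! I2C. Index two: all divisors. -/

set_option autoImplicit false

open Polynomial Matrix Pool.Agent.H63.WT

namespace Pool.Agent.H91.WT

theorem pf_I2C (hI2B : T_I2B) (hRED : T_RED) (hNTR : T_NTR) (hCAD : T_CAD) (hLAL : T_LAL) :
    T_I2C := by
  intro F _ _ _ _ m M0 P1 P2 R1 R2 U1 U2 hD hF hm hnt
  have hLA : LA F := hLAL F
  have h2 : (2 : F) ≠ 0 := hLA.1
  have hcop1 : IsCoprime (P1 * P2) (C m * M0) := by
    refine IsCoprime.mul_right ?_ hD.cop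
    exact (isCoprime_one_right (x := P1 * P2)).of_isCoprime_of_dvd_right
      ((isUnit_C.2 (isUnit_iff_ne_zero.2 hD.m0)).dvd)
  have hR1P : R1 ∣ P1 * P2 := by
    rw [hD.fac1]; exact ⟨U1 * P2, by ring⟩
  have hsR1 : R1.Separable := hD.sep.of_dvd hR1P
  have hcR1 : IsCoprime R1 (C m * M0) := hcop1.of_isCoprime_of_dvd_left hR1P
  have hnR1 : IsSquare (nn R1 (C m * M0)) :=
    (hCAD F hLA P1 P2 R1 U1 (C m * M0) hD.mon1 hD.mon2 hD.monR1 hD.monU1 hD.fac1 hD.sep
      hcop1 hD.sq1 hD.nn1).1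
  have key : ∀ n : ℕ, ∀ T : F[X], T.natDegree = n → T.Monic → SqM T (C m * M0) →
      Even T.natDegree ∧ sy R1 (C m * M0) T = 0 := by
    intro n
    induction n using Nat.strong_induction_on with
    | _ n ih =>
      intro T hTn hT hsT
      rcases Nat.lt_or_ge n 3 with hn | hn
      · interval_cases n
        · have h1 : T = 1 := hT.natDegree_eq_zero.1 hTn
          rw [h1, natDegree_one]
          exact ⟨Even.zero, sy_one _ _⟩
        · exfalso
          obtain ⟨t, ht⟩ := exists_root_of_degree_eq_one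
            ((degree_eq_iff_natDegree_eq_of_pos Nat.one_pos).2 hTn)
          have h3 := sq_of_sqM hsT ht
          rw [eval_mul, eval_C] at h3
          exact hnt t h3
        · rw [hTn]
          exact ⟨⟨1, rfl⟩, hI2B F m M0 P1 P2 R1 R2 U1 U2 hD hF hm hnt T hT hTn hsT⟩
      · obtain ⟨Y, B, l, hl, hB, hBd, hYB, hpar⟩ := hRED F h2 m M0 T hD.m0 hD.mon0 hD.sep0
          hD.deg0 hT hsT (hTn ▸ hn)
        have hsB : SqM B (C m * M0) := by
          refine ⟨Y, -(C l * T), ?_⟩
          have h3 : C m * M0 - Y ^ 2 = -(C l * (T * B)) := by rw [← hYB]; ring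
          rw [h3]; ring
        obtain ⟨hBe, hB0⟩ := ih B.natDegree (hTn ▸ hBd) B rfl hB hsB
        have hev := hpar hm
        have hTe : Even T.natDegree := (Nat.even_add.1 hev).2 hBe
        refine ⟨hTe, ?_⟩
        obtain ⟨hco, hz⟩ := hNTR F hLA R1 (C m * M0) Y (T * B) l hD.monR1 hsR1 hcR1 hD.ram1
          hnR1 hl hYB
        have hadd := sy_mul hCAD hLA hD.mon1 hD.mon2 hD.monR1 hD.monU1 hD.fac1 hD.sep hcop1
          hD.sq1 hD.nn1 hT hB (hco.of_mul_right_left) (hco.of_mul_right_right)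
        rw [hz, hB0, add_zero] at hadd
        exact hadd.symm
  intro T hT hsT
  exact key _ T rfl hT hsT

end Pool.Agent.H91.WT
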