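import Pool.Agent.H91.WT.Lib

/-! I2DP. Index two: the quaternary form of the even part is hyperbolic. -/

set_option autoImplicit false

open Polynomial Matrix Pool.Agent.H63.WT

namespace Pool.Agent.H91.WT

theorem pf_I2DP (hREV : T_REV) (hLDV : T_LDV) (hEXT : T_EXT) (hPTB : T_PTB) (hEU6 : T_EU6)
    (hEU4 : T_EU4) (hEU9 : T_EU9) (hI2AP : T_I2A') (hI2B : T_I2B) (hQDZ : T_QDZ)
    (hBCH : T_BCH) (hBCS : T_BCS) (hGMM : T_GMM) (hGDT : T_GDT) (hCAD : T_CAD) (hNNR : T_NNR)
    (hSSQ : T_SSQ) (hEU1 : T_EU1) (hONE : T_ONE) (hLAL : T_LAL) : T_I2D' := by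
  intro F _ _ _ _ m M0 P1 P2 R1 R2 U1 U2 hD hF hm hnt
  have hLA : LA F := hLAL F
  have h2 : (2 : F) ≠ 0 := hLA.1
  have hcop1 := Dt_cop hD
  have hc1 : IsCoprime M0 P1 := (hD.cop.of_mul_left_left).symm
  have hn1 : IsSquare (nn M0 P1) :=
    sq_even hGDT hNNR hD.m0 hD.mon0 hD.deg0 hD.mon1 hD.even1 hD.nn1
  have h9 := (hEU9 F h2).1 m M0 P1 hD.m0 hD.mon0 hD.deg0 hc1
  by_contra hG
  have hAn : Anis (gm M0 P1) := by
    by_contra hA
    exact hG ((h9.2 hn1).1.2 hA)
  -- the extension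
  have hX2 : (X ^ 2 - C m : F[X]).Monic := monic_X_pow_sub_C m two_ne_zero
  have hX2d : (X ^ 2 - C m : F[X]).natDegree = 2 := natDegree_X_pow_sub_C
  have hirr : Irreducible (X ^ 2 - C m : F[X]) := by
    refine (hX2.irreducible_iff_roots_eq_zero_of_degree_le_three (by omega) (by omega)).2 ?_
    refine Multiset.eq_zero_of_forall_notMem (fun t ht => hm ?_)
    have h3 := (mem_roots hX2.ne_zero).1 ht
    rw [IsRoot.def, eval_sub, eval_pow, eval_X, eval_C, sub_eq_zero] at h3
    exact ⟨t, by rw [← h3, sq]⟩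
  obtain ⟨E, i1, i2, i3, i4, i5, s, hfd, hfr, hs, -⟩ := hEXT F (X ^ 2 - C m) hirr
  have hfr2 : Module.finrank F E = 2 := by rw [hfr, hX2d]
  have hs2 : s ^ 2 = algebraMap F E m := by
    rw [map_sub, map_pow, aeval_X, aeval_C, sub_eq_zero] at hs
    exact hs
  have hLAE : LA E := hLAL E
  have h2E : (2 : E) ≠ 0 := hLAE.1
  have hmE : algebraMap F E m ≠ 0 := by
    rw [Ne, map_eq_zero]; exact hD.m0
  have hsqmE : IsSquare (algebraMap F E m) := ⟨s, by rw [← hs2, sq]⟩
  have hMEd : (M0.map (algebraMap F E)).natDegree = 4 := by rw [natDegree_map, hD.deg0]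
  by_cases hN : NCZ (M0.map (algebraMap F E)) (P1.map (algebraMap F E))
  · obtain ⟨f, hf⟩ := hBCH F E h2 (algebraMap F E)
    obtain ⟨t0, -, ht0a, ht0b⟩ := (hPTB E (algebraMap F E m) (M0.map (algebraMap F E)) hmE
      (hD.mon0.map _) hD.sep0.map hMEd).2 hsqmE 0
    have ht0c : eval t0 (M0.map (algebraMap F E)) ≠ 0 := right_ne_zero_of_mul ht0a
    have hsq0 : IsSquare (eval t0 (M0.map (algebraMap F E))) := by
      refine sq_cancel hmE ?_
      have h3 : eval t0 (M0.map (algebraMap F E)) * algebraMap F E m ^ 2 =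
        algebraMap F E m * (algebraMap F E m * eval t0 (M0.map (algebraMap F E))) := by ring
      rw [h3]
      exact hsqmE.mul ht0b
    have hnE : IsSquare (nn (M0.map (algebraMap F E)) (P1.map (algebraMap F E))) := by
      rw [(hGMM F E (algebraMap F E) M0 P1 hD.mon0).1]
      exact hn1.map _
    have hnX : ∀ t : E, IsSquare (eval t (M0.map (algebraMap F E))) →
        IsSquare (nn (M0.map (algebraMap F E)) (P1.map (algebraMap F E) * (X - C t))) := by
      intro t ht
      rw [nn_mul hGDT (hD.mon0.map _), nn_X_sub_C hGDT hNNR (hD.mon0.map _) hMEd]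
      exact hnE.mul ht
    have hPne : (P1 * P2).map (algebraMap F E) ≠ 0 :=
      ((hD.mon1.mul hD.mon2).map (algebraMap F E)).ne_zero
    obtain ⟨Z, hZ⟩ := exists_finset hPne
    have hcE : IsCoprime (M0.map (algebraMap F E)) (P1.map (algebraMap F E)) := cop_map _ hc1
    obtain ⟨t, htZ, htM, htA, hts⟩ := hREV E (M0.map (algebraMap F E))
      (P1.map (algebraMap F E)) t0 (hD.mon0.map _) hD.sep0.map hMEd hcE ht0c (hnX t0 hsq0) hN Z
    have htsq : IsSquare (eval t (M0.map (algebraMap F E))) := by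
      refine sq_cancel ht0c ?_
      have h3 : eval t (M0.map (algebraMap F E)) * eval t0 (M0.map (algebraMap F E)) ^ 2 =
        eval t (M0.map (algebraMap F E)) * eval t0 (M0.map (algebraMap F E)) *
          eval t0 (M0.map (algebraMap F E)) := by ring
      rw [h3]
      exact hts.mul hsq0
    have hPt := hZ t htZ
    rw [Polynomial.map_mul, eval_mul] at hPt
    have hP1t : eval t (P1.map (algebraMap F E)) ≠ 0 := left_ne_zero_of_mul hPt
    have hmsq : IsSquare (algebraMap F E m * eval t (M0.map (algebraMap F E))) :=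
      hsqmE.mul htsq
    have h6 := hEU6 E h2E (algebraMap F E m) (M0.map (algebraMap F E))
      (P1.map (algebraMap F E)) t hmE hsqmE (hD.mon0.map _) hMEd (hD.mon1.map _) hcE.symm
      (by rw [natDegree_map]; exact hD.even1) hP1t htM hmsq
    have hG0 : G (algebraMap F E m) (M0.map (algebraMap F E)) (P1.map (algebraMap F E)) = 0 := by
      have h3 := hQDZ F E hLA hfr2 f hf _ (h9.1.2 hn1)
      unfold G at h3 ⊢
      rw [hBCS F E h2 f hf M0 (C m * P1) hD.mon0 (C_mul_cop hD.m0 hc1), Polynomial.map_mul,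
        map_C] at h3
      exact h3
    have hG1 : G (algebraMap F E m) (M0.map (algebraMap F E))
        (P1.map (algebraMap F E) * (X - C t)) ≠ 0 := by
      intro h3
      exact (((hEU9 E h2E).1 (algebraMap F E m) (M0.map (algebraMap F E))
        (P1.map (algebraMap F E) * (X - C t)) hmE (hD.mon0.map _) hMEd
        (hcE.mul_right (cop_X_sub_C htM))).2 (hnX t htsq)).1.1 h3 htA
    have hA := hI2AP F E hfr2 m M0 P1 P2 R1 R2 U1 U2 hD hF hm hnt t
      (by rw [map_mul, ← eval_map_algebraMap, ← eval_map_algebraMap]; exact hPt)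
      (by rw [← eval_map_algebraMap]; exact htM)
      (by rw [← eval_map_algebraMap]; exact hmsq)
    rw [Polynomial.map_mul, map_C, h6, hG0, zero_sub, neg_eq_zero] at hA
    exact hG1 hA
  · obtain ⟨T, z, c, t1, hT, hTd, hTi, hc, hsT, hTc, ht1, ht1s, hz, hdvd⟩ :=
      hLDV F E m s M0 P1 hfr2 hs2 hm hD.mon0 hD.sep0 hD.deg0 hc1 hn1 hAn hnt hN P1 hc1.symm
        hD.mon1
    have hcPT : IsCoprime P1 T := hTc.of_mul_right_left.symm
    have hcTM : IsCoprime T M0 := hTc.of_mul_right_right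
    have h4 := hEU4 F h2 m M0 P1 T hD.m0 hD.mon0 hD.deg0 hD.mon1 hT hcPT
      (hc1.symm.mul_left hcTM) hD.even1 (by rw [hTd]; exact ⟨1, rfl⟩) hsT
    have hmc : m / c ≠ 0 := div_ne_zero hD.m0 hc
    have hcX : IsCoprime M0 (X - C t1) := cop_X_sub_C ht1
    have hz1 : G m M0 (P1 * T) = G (m / c) M0 (X - C t1) := by
      unfold G
      refine (hSSQ F h2 M0 hD.mon0).1 _ _ (P1 * z) (C_mul_cop hD.m0 (hc1.mul_right hcTM.symm))
        (C_mul_cop hmc hcX) ?_
      obtain ⟨u, hu⟩ := hdvd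
      refine ⟨C (m / c) * P1 * u, ?_⟩
      have h5 : (C m : F[X]) = C (m / c) * C c := by
        rw [← C_mul, div_mul_cancel₀ _ hc]
      have h6 : C m * (P1 * T) - C (m / c) * (X - C t1) * (P1 * z) ^ 2 =
          C (m / c) * P1 * (C c * T - P1 * (X - C t1) * z ^ 2) := by
        rw [h5]; ring
      rw [h6, hu]
      ring
    have hz2 : G (m / c) M0 (X - C t1) = 0 := by
      have h5 := hEU1 F h2 (m / c) M0 (X - C t1) hmc hD.mon0 hD.deg0 (monic_X_sub_C t1)
        hcX.symm
      have h6 : ¬ Even (X - C t1 : F[X]).natDegree := by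
        rw [natDegree_X_sub_C]; decide
      rw [if_neg h6] at h5
      have h7 : S (X - C t1) (C (m / c) * M0) = on (m / c) := by
        rw [(hSSQ F h2 (X - C t1) (monic_X_sub_C t1)).2.1 t1 rfl (C (m / c) * M0) (by
          rw [eval_mul, eval_C]; exact mul_ne_zero hmc ht1), eval_mul, eval_C]
        obtain ⟨r, hr⟩ := ht1s
        have hr0 : r ≠ 0 := by
          rintro rfl
          rw [mul_zero] at hr
          exact ht1 hr
        rw [hr, ← sq]
        exact (hONE F h2).1 (m / c) r hmc hr0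
      rw [h7] at h5
      exact left_eq_add.1 h5.symm
    rw [hz1, hz2, sub_zero] at h4
    have h8 := (hCAD F hLA P1 P2 R1 U1 (C m * M0) hD.mon1 hD.mon2 hD.monR1 hD.monU1 hD.fac1
      hD.sep hcop1 hD.sq1 hD.nn1).2.2.2 T hcPT
    rw [hI2B F m M0 P1 P2 R1 R2 U1 U2 hD hF hm hnt T hT hTd hsT] at h8
    rw [h8] at h4
    exact hG h4.symm

end Pool.Agent.H91.WT
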