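import Pool.Agent.H63.WT.TA

/-! TRU. Injectivity of the transfer for one functional and one basis is enough. -/

set_option autoImplicit false

open Polynomial Matrix Pool.Agent.H63.WT

namespace Pool.Agent.H91.WT

section aux

variable {F E : Type} [Field F] [Field E] [Algebra F E]

/-- functionals on a field extension form a space of dimension one -/
theorem exists_mul [FiniteDimensional F E] {s s' : E →ₗ[F] F} (hs : s ≠ 0) :
    ∃ c : E, ∀ z, s' z = s (c * z) := by
  let Φ : E →ₗ[F] (E →ₗ[F] F) :=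
    { toFun := fun c => s ∘ₗ LinearMap.mulLeft F c
      map_add' := fun x y => by ext z; simp [add_mul]
      map_smul' := fun r x => by ext z; simp }
  have hinj : Function.Injective Φ := by
    rw [injective_iff_map_eq_zero]
    intro c hc
    by_contra h0
    apply hs
    ext y
    have h1 : Φ c (c⁻¹ * y) = 0 := by rw [hc]; rfl
    have h2 : Φ c (c⁻¹ * y) = s (c * (c⁻¹ * y)) := rfl
    rw [h2, mul_inv_cancel_left₀ h0] at h1
    exact h1
  have hsur : Function.Surjective Φ :=
    (LinearMap.injective_iff_surjective_of_finrank_eq_finrank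
      (Subspace.dual_finrank_eq (K := F) (V := E)).symm).1 hinj
  obtain ⟨c, hc⟩ := hsur s'
  exact ⟨c, fun z => by rw [← hc]; rfl⟩

/-- the matrix of the change of basis -/
def chg (ι : Type) [DecidableEq ι] {d d' : ℕ} (u : Matrix (Fin d) (Fin d') F) :
    Matrix (ι × Fin d) (ι × Fin d') F := fun x y => if x.1 = y.1 then u x.2 y.2 else 0

theorem chg_mul (ι : Type) [Fintype ι] [DecidableEq ι] {d d' : ℕ} {u : Matrix (Fin d) (Fin d') F}
    {v : Matrix (Fin d') (Fin d) F} (h : u * v = 1) : chg ι u * chg ι v = 1 := by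
  ext ⟨i, p⟩ ⟨j, q⟩
  rw [mul_apply, Fintype.sum_prod_type]
  have h1 := congrFun (congrFun h p) q
  rw [mul_apply] at h1
  by_cases hij : i = j
  · subst hij
    have h2 : ∀ x : ι, (∑ y : Fin d', chg ι u (i, p) (x, y) * chg ι v (x, y) (i, q)) =
        if x = i then ∑ y : Fin d', u p y * v y q else 0 := by
      intro x
      unfold chg
      by_cases hx : x = i
      · subst hx
        simp
      · have hx' : ¬ i = x := fun h => hx h.symm
        simp [hx, hx']
    rw [Finset.sum_congr rfl (fun x _ => h2 x), Finset.sum_ite_eq' Finset.univ i, h1]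
    simp [one_apply, Prod.mk.injEq]
  · have h2 : ∀ x : ι, (∑ y : Fin d', chg ι u (i, p) (x, y) * chg ι v (x, y) (j, q)) = 0 := by
      intro x
      refine Finset.sum_eq_zero (fun y _ => ?_)
      unfold chg
      by_cases hx : i = x
      · subst hx
        simp [hij]
      · simp [hx]
    rw [Finset.sum_congr rfl (fun x _ => h2 x), Finset.sum_const_zero]
    simp [one_apply, Prod.mk.injEq, hij]

theorem trm_chg {ι : Type} [Fintype ι] [DecidableEq ι] {d d' : ℕ} (s s' : E →ₗ[F] F) {c : E}
    (hc : ∀ z, s' z = s (c * z)) (b : Fin d → E) (b' : Fin d' → E)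
    (u : Matrix (Fin d) (Fin d') F) (hu : ∀ k, b' k = ∑ p, u p k • b p) (A : Matrix ι ι E) :
    trm s' b' A = (chg ι u)ᵀ * trm s b (c • A) * chg ι u := by
  ext ⟨i, k⟩ ⟨j, l⟩
  rw [mul_apply, Fintype.sum_prod_type]
  have h1 : ∀ (x : ι) (q : Fin d), ((chg ι u)ᵀ * trm s b (c • A)) (i, k) (x, q) =
      ∑ p, u p k * s (c * A i x * (b p * b q)) := by
    intro x q
    rw [mul_apply, Fintype.sum_prod_type]
    have h2 : ∀ y : ι, (∑ p : Fin d, (chg ι u)ᵀ (i, k) (y, p) *
        trm s b (c • A) (y, p) (x, q)) =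
        if y = i then ∑ p, u p k * s (c * A i x * (b p * b q)) else 0 := by
      intro y
      by_cases hy : y = i
      · subst hy
        simp [chg, trm, transpose_apply]
      · simp [chg, trm, transpose_apply, hy]
    rw [Finset.sum_congr rfl (fun y _ => h2 y), Finset.sum_ite_eq' Finset.univ i]
    simp
  have h3 : ∀ x : ι, (∑ q : Fin d, ((chg ι u)ᵀ * trm s b (c • A)) (i, k) (x, q) *
      chg ι u (x, q) (j, l)) =
      if x = j then ∑ q, (∑ p, u p k * s (c * A i j * (b p * b q))) * u q l else 0 := by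
    intro x
    by_cases hx : x = j
    · subst hx
      rw [if_pos rfl]
      refine Finset.sum_congr rfl (fun q _ => ?_)
      rw [h1]
      simp [chg]
    · rw [if_neg hx]
      refine Finset.sum_eq_zero (fun q _ => ?_)
      simp [chg, hx]
  rw [Finset.sum_congr rfl (fun x _ => h3 x), Finset.sum_ite_eq' Finset.univ j,
    if_pos (Finset.mem_univ j)]
  have h4 : trm s' b' A (i, k) (j, l) = s (c * A i j * (b' k * b' l)) := by
    unfold trm
    rw [hc, mul_assoc]
  rw [h4, hu k, hu l, Finset.sum_mul_sum, Finset.mul_sum, map_sum]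
  have h5 : ∀ p : Fin d, s (c * A i j * ∑ q, (u p k • b p) * (u q l • b q)) =
      ∑ q, u p k * s (c * A i j * (b p * b q)) * u q l := by
    intro p
    rw [Finset.mul_sum, map_sum]
    refine Finset.sum_congr rfl (fun q _ => ?_)
    have h6 : c * A i j * ((u p k • b p) * (u q l • b q)) =
        (u p k * u q l) • (c * A i j * (b p * b q)) := by
      rw [smul_mul_smul_comm, mul_smul_comm]
    rw [h6, map_smul, smul_eq_mul]
    ring
  rw [Finset.sum_congr rfl (fun p _ => h5 p), Finset.sum_comm]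
  refine Finset.sum_congr rfl (fun q _ => ?_)
  rw [Finset.sum_mul]

end aux

theorem pf_TRU (hLAE : T_LAE) (hIV : T_IV) (hSCL : T_SCL) (hCLS : T_CLS) : T_TRU := by
  intro F E _ _ _ hLA hex
  obtain ⟨d, b, s, f, x, hs, hf, hx, hfx⟩ := hex
  have hfin : FiniteDimensional F E := Module.Finite.of_basis b
  have hLAE' : LA E := hLAE F E hLA hfin
  have hNI := hLAE'.2 E inferInstance
  have hiv := hIV E hLAE'.1 hNI.1 hNI.2
  intro d' b' s' f' hs' hf' x' hx' hz
  by_contra hne
  have hx0 : x ≠ 0 := by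
    rintro rfl
    exact hfx (map_zero f)
  have hxx : x' = x := hiv.2.1 x' x hx' hx hne hx0
  obtain ⟨c, hc⟩ := exists_mul (s' := s') hs
  have hc0 : c ≠ 0 := by
    rintro rfl
    apply hs'
    ext z
    rw [hc, zero_mul, map_zero]
    rfl
  obtain ⟨n, A, hA, -, hxA⟩ := hx'
  have hI : I2 (cls A) := by rw [← hxA, hxx]; exact hx
  have hcA : SN (c • A) := by
    refine ⟨?_, ?_⟩
    · unfold Matrix.IsSymm
      rw [transpose_smul, hA.1]
    · rw [det_smul]
      exact mul_ne_zero (pow_ne_zero _ hc0) hA.2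
  have hscl : cls (c • A) = cls A := (hSCL E hLAE'.1 hNI.1 hNI.2 c hc0).1 _ A hA hI
  have hu : ∀ k, b' k = ∑ p, (b.toMatrix b') p k • b p := by
    intro k
    exact (b.sum_toMatrix_smul_self b' k).symm
  have htr := trm_chg s s' hc b b' (b.toMatrix b') hu A
  have hU : chg (Fin (2 * n)) (b.toMatrix b') * chg (Fin (2 * n)) (b'.toMatrix b) = 1 :=
    chg_mul _ (b.toMatrix_mul_toMatrix_flip b')
  have hV : chg (Fin (2 * n)) (b'.toMatrix b) * chg (Fin (2 * n)) (b.toMatrix b') = 1 :=
    chg_mul _ (b'.toMatrix_mul_toMatrix_flip b)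
  have h1 := hf (Fin (2 * n)) (c • A) hcA
  have h2 := (hCLS F hLA.1).2.2.1 _ _ (trm s b (c • A)) _ _ h1.1 hU hV
  have h3 := hf' (Fin (2 * n)) A hA
  rw [hxA, h3.2, htr, h2.2, ← h1.2, hscl, ← hxA, hxx] at hz
  exact hfx hz

end Pool.Agent.H91.WT
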