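import Pool.Agent.H63.WT.TC

/-! Small lemmas for the rows of wit_modules. -/

set_option autoImplicit false

open Polynomial Matrix Pool.Agent.H63.WT

namespace Pool.Agent.H91.WT

section fld

variable {F : Type} [Field F]

theorem la_iv (hIV : T_IV) (hLA : LA F) : (∀ x : WG F, I2 x → x + x = 0) ∧
    (∀ x y : WG F, I2 x → I2 y → x ≠ 0 → y ≠ 0 → x = y) ∧ (∃ x : WG F, I2 x ∧ x ≠ 0) := by
  have h := hLA.2 F inferInstance
  have h2 := hIV F hLA.1 h.1 h.2
  exact ⟨h2.1, h2.2.1, h2.2.2.1⟩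

theorem cop_X_sub_C {A : F[X]} {t : F} (h : eval t A ≠ 0) : IsCoprime A (X - C t) := by
  refine IsCoprime.symm (((irreducible_X_sub_C t).coprime_iff_not_dvd).2 ?_)
  intro hd
  exact h (dvd_iff_isRoot.1 hd)

theorem eval_ne_of_cop {A : F[X]} {t : F} (h : IsCoprime A (X - C t)) : eval t A ≠ 0 := by
  intro h0
  have hd : (X - C t) ∣ A := dvd_iff_isRoot.2 h0
  exact (irreducible_X_sub_C t).not_isUnit ((IsCoprime.isUnit_of_dvd' h hd dvd_rfl))

theorem sqM_of_dvd {T p M : F[X]} (h : p ∣ T) (hT : SqM T M) : SqM p M := by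
  obtain ⟨s, hs⟩ := hT
  exact ⟨s, h.trans hs⟩

/-- a value at a root of the modulus is a square -/
theorem sq_of_sqM {T M : F[X]} {t : F} (hT : SqM T M) (ht : eval t T = 0) :
    IsSquare (eval t M) := by
  obtain ⟨s, u, hu⟩ := hT
  refine ⟨eval t s, ?_⟩
  have h1 : eval t (M - s ^ 2) = 0 := by
    rw [hu, eval_mul, ht, zero_mul]
  rw [eval_sub, eval_pow, sub_eq_zero] at h1
  rw [h1, sq]

/-- ramified polynomials are prime to the divisors -/
theorem cop_of_ram {R T M : F[X]} (hR : R ≠ 0)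
    (hram : ∀ p : F[X], Irreducible p → p ∣ R → ¬ SqM p M) (hT : SqM T M) :
    IsCoprime R T := by
  classical
  rw [← EuclideanDomain.gcd_isUnit_iff]
  by_contra hu
  have hg : EuclideanDomain.gcd R T ≠ 0 := by
    intro h0
    rw [EuclideanDomain.gcd_eq_zero_iff] at h0
    exact hR h0.1
  obtain ⟨p, hp, hpd⟩ := WfDvdMonoid.exists_irreducible_factor hu hg
  exact hram p hp (hpd.trans (EuclideanDomain.gcd_dvd_left _ _))
    (sqM_of_dvd (hpd.trans (EuclideanDomain.gcd_dvd_right _ _)) hT)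

theorem nn_C_mul (hGDT : T_GDT) {A : F[X]} (hA : A.Monic) (c : F) (h : F[X]) :
    nn A (C c * h) = c ^ A.natDegree * nn A h := by
  have h1 := hGDT F A hA
  rw [h1.2.2.2.1, h1.2.2.2.2.1]

theorem nn_mul (hGDT : T_GDT) {A : F[X]} (hA : A.Monic) (h h' : F[X]) :
    nn A (h * h') = nn A h * nn A h' := (hGDT F A hA).2.2.2.1 h h'

theorem nn_swap (hNNR : T_NNR) {A M0 : F[X]} (hA : A.Monic) (hM : M0.Monic)
    (hd : M0.natDegree = 4) : nn A M0 = nn M0 A := by
  rw [(hNNR F A M0 hA hM).2, hd, mul_comm A.natDegree 4, pow_mul]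
  norm_num

theorem nn_X_sub_C (hGDT : T_GDT) (hNNR : T_NNR) {M0 : F[X]} (hM : M0.Monic)
    (hd : M0.natDegree = 4) (t : F) : nn M0 (X - C t) = eval t M0 := by
  rw [← nn_swap hNNR (monic_X_sub_C t) hM hd]
  exact (hGDT F (X - C t) (monic_X_sub_C t)).2.2.2.2.2.2 t rfl M0

theorem sq_cancel {a b : F} (hb : b ≠ 0) (h : IsSquare (a * b ^ 2)) : IsSquare a := by
  obtain ⟨y, hy⟩ := h
  refine ⟨y / b, ?_⟩
  field_simp
  rw [hy]
  ring

theorem sq_even (hGDT : T_GDT) (hNNR : T_NNR) {m : F} {M0 P : F[X]} (hm : m ≠ 0)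
    (hM : M0.Monic) (hd : M0.natDegree = 4) (hP : P.Monic) (he : Even P.natDegree)
    (hs : IsSquare (nn P (C m * M0))) : IsSquare (nn M0 P) := by
  obtain ⟨k, hk⟩ := he
  rw [nn_C_mul hGDT hP, nn_swap hNNR hP hM hd, hk] at hs
  refine sq_cancel (b := m ^ k) (pow_ne_zero _ hm) ?_
  have h1 : nn M0 P * (m ^ k) ^ 2 = m ^ (k + k) * nn M0 P := by ring
  rw [h1]
  exact hs

theorem sq_odd (hGDT : T_GDT) (hNNR : T_NNR) {m : F} {M0 P : F[X]} (hm : m ≠ 0)
    (hM : M0.Monic) (hd : M0.natDegree = 4) (hP : P.Monic) (he : Odd P.natDegree)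
    (hs : IsSquare (nn P (C m * M0))) : IsSquare (m * nn M0 P) := by
  obtain ⟨k, hk⟩ := he
  rw [nn_C_mul hGDT hP, nn_swap hNNR hP hM hd, hk] at hs
  refine sq_cancel (b := m ^ k) (pow_ne_zero _ hm) ?_
  have h1 : m * nn M0 P * (m ^ k) ^ 2 = m ^ (2 * k + 1) * nn M0 P := by ring
  rw [h1]
  exact hs

theorem sy_one (A M : F[X]) : sy A M 1 = 0 := by
  unfold sy
  rw [mul_one]
  abel

/-- the symbol is multiplicative (from the values) -/
theorem sy_mul [CharZero F] (hCAD : T_CAD) (hLA : LA F) {A B R U M : F[X]} (hA : A.Monic)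
    (hB : B.Monic) (hR : R.Monic) (hU : U.Monic) (hf : A = R * U) (hs : (A * B).Separable)
    (hc : IsCoprime (A * B) M) (hsq : SqM U M) (hn : IsSquare (nn A M)) {T T' : F[X]}
    (hT : T.Monic) (hT' : T'.Monic) (h1 : IsCoprime R T) (h2 : IsCoprime R T') :
    sy R M (T * T') = sy R M T + sy R M T' := by
  have h := (hCAD F hLA A B R U M hA hB hR hU hf hs hc hsq hn).2.2.1 T T' hT hT' h1 h2
  unfold cc at h
  rw [hT.natDegree_mul hT', add_smul, add_add_add_comm] at h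
  exact add_left_cancel h

theorem exists_finset {P : F[X]} (hP : P ≠ 0) : ∃ Z : Finset F, ∀ t : F, t ∉ Z →
    eval t P ≠ 0 := by
  classical
  refine ⟨P.roots.toFinset, fun t ht h => ht ?_⟩
  rw [Multiset.mem_toFinset, mem_roots hP]
  exact h

theorem Dt_cop {m : F} {M0 P1 P2 R1 R2 U1 U2 : F[X]} (hD : Dt m M0 P1 P2 R1 R2 U1 U2) :
    IsCoprime (P1 * P2) (C m * M0) := by
  refine IsCoprime.mul_right ?_ hD.cop
  exact (isCoprime_one_right (x := P1 * P2)).of_isCoprime_of_dvd_right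
    ((isUnit_C.2 (isUnit_iff_ne_zero.2 hD.m0)).dvd)

theorem C_mul_cop {m : F} {A M0 : F[X]} (hm : m ≠ 0) (h : IsCoprime A M0) :
    IsCoprime A (C m * M0) := by
  refine IsCoprime.mul_right ?_ h
  exact (isCoprime_one_right (x := A)).of_isCoprime_of_dvd_right
    ((isUnit_C.2 (isUnit_iff_ne_zero.2 hm)).dvd)

variable {E : Type} [Field E] [Algebra F E]

theorem aeval_ne_of_cop {A T : F[X]} {t : E} (h : IsCoprime A T) (ht : aeval t T = 0) :
    aeval t A ≠ 0 := by
  obtain ⟨a, b, hab⟩ := h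
  intro h0
  have h1 := congrArg (aeval t) hab
  rw [map_add, map_mul, map_mul, h0, ht, mul_zero, mul_zero, add_zero, map_one] at h1
  exact zero_ne_one h1

theorem sqM_map {U M : F[X]} (φ : F →+* E) (h : SqM U M) : SqM (U.map φ) (M.map φ) := by
  obtain ⟨s, u, hu⟩ := h
  refine ⟨s.map φ, u.map φ, ?_⟩
  rw [← Polynomial.map_pow, ← Polynomial.map_sub, hu, Polynomial.map_mul]

theorem cop_map {A B : F[X]} (φ : F →+* E) (h : IsCoprime A B) :
    IsCoprime (A.map φ) (B.map φ) := h.map (mapRingHom φ)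

theorem cop_of_aeval_ne {A T : F[X]} {t : E} (hT : Irreducible T) (ht : aeval t T = 0)
    (h : aeval t A ≠ 0) : IsCoprime A T := by
  refine IsCoprime.symm ((hT.coprime_iff_not_dvd).2 ?_)
  rintro ⟨u, hu⟩
  rw [hu, map_mul, ht, zero_mul] at h
  exact h rfl

end fld

section bc

variable {F : Type} [Field F] {E : Type} [Field E] [Algebra F E]

theorem sn_one {a : F} (ha : a ≠ 0) : SN (fun _ _ : Fin 1 => a : Matrix (Fin 1) (Fin 1) F) := by
  refine ⟨by ext i j; rfl, ?_⟩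
  rw [det_fin_one]
  exact ha

theorem f_on {f : WG F →+ WG E} (hf : ∀ (ι : Type) [Fintype ι] [DecidableEq ι]
    (A : Matrix ι ι F), SN A → f (cls A) = cls (A.map (algebraMap F E))) {a : F} (ha : a ≠ 0) :
    f (on a) = on (algebraMap F E a) := by
  unfold on
  rw [hf (Fin 1) _ (sn_one ha)]
  rfl

theorem f_sy (hBCS : T_BCS) (h2 : (2 : F) ≠ 0) {f : WG F →+ WG E}
    (hf : ∀ (ι : Type) [Fintype ι] [DecidableEq ι]
    (A : Matrix ι ι F), SN A → f (cls A) = cls (A.map (algebraMap F E))) {A a b : F[X]}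
    (hA : A.Monic) (ha : IsCoprime A a) (hb : IsCoprime A b) :
    f (sy A a b) =
      sy (A.map (algebraMap F E)) (a.map (algebraMap F E)) (b.map (algebraMap F E)) := by
  unfold sy
  rw [map_add, map_sub, map_sub, hBCS F E h2 f hf A 1 hA isCoprime_one_right,
    hBCS F E h2 f hf A a hA ha, hBCS F E h2 f hf A b hA hb,
    hBCS F E h2 f hf A (a * b) hA (ha.mul_right hb), Polynomial.map_one, Polynomial.map_mul]

end bc

section loc

variable {F : Type} [NontriviallyNormedField F] [IsUltrametricDist F] [ProperSpace F]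
  [CharZero F]

/-- the symbols at linear polynomials are locally constant -/
theorem sy_loc (hLOC : T_LOC) {R M : F[X]} (hR : R.Monic) (hRM : IsCoprime R M) {t : F}
    (ht : eval t R ≠ 0) : ∃ ε : ℝ, 0 < ε ∧ ∀ t' : F, ‖t' - t‖ < ε → eval t' R ≠ 0 ∧
      sy R M (X - C t') = sy R M (X - C t) := by
  have hc : IsCoprime R (X - C t) := cop_X_sub_C ht
  obtain ⟨e1, he1, h1⟩ := hLOC F R (X - C t) 1 hR hc
  obtain ⟨e2, he2, h2⟩ := hLOC F R (M * (X - C t)) (M.natDegree + 1) hR (hRM.mul_right hc)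
  set K : ℝ := ∑ i ∈ Finset.range (M.natDegree + 1), ‖M.coeff i‖ with hK
  have hK0 : 0 ≤ K := Finset.sum_nonneg (fun i _ => norm_nonneg _)
  have hKi : ∀ i, ‖M.coeff i‖ ≤ K := by
    intro i
    rcases Nat.lt_or_ge i (M.natDegree + 1) with hi | hi
    · exact Finset.single_le_sum (f := fun i => ‖M.coeff i‖) (fun i _ => norm_nonneg _)
        (Finset.mem_range.2 hi)
    · rw [coeff_eq_zero_of_natDegree_lt (by omega), norm_zero]
      exact hK0
  refine ⟨min e1 (e2 / (K + 1)), lt_min he1 (by positivity), ?_⟩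
  intro t' ht'
  have ha : ‖t' - t‖ < e1 := lt_of_lt_of_le ht' (min_le_left _ _)
  have hb : ‖t' - t‖ < e2 / (K + 1) := lt_of_lt_of_le ht' (min_le_right _ _)
  have hb' : ‖t' - t‖ * (K + 1) < e2 := (lt_div_iff₀ (by linarith)).1 hb
  have h3 := h1 (X - C t') (natDegree_X_sub_C t').le (by
    intro i
    have h4 : (X - C t') - (X - C t) = C (t - t') := by rw [C_sub]; ring
    rw [h4, coeff_C]
    split_ifs
    · rw [norm_sub_rev]; exact ha
    · rw [norm_zero]; exact he1)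
  have h5 := h2 (M * (X - C t')) (by
      refine (natDegree_mul_le).trans ?_
      rw [natDegree_X_sub_C]) (by
    intro i
    have h4 : M * (X - C t') - M * (X - C t) = M * C (t - t') := by rw [C_sub]; ring
    rw [h4, coeff_mul_C, norm_mul, norm_sub_rev t t']
    calc ‖M.coeff i‖ * ‖t' - t‖ ≤ K * ‖t' - t‖ :=
          mul_le_mul_of_nonneg_right (hKi i) (norm_nonneg _)
      _ ≤ ‖t' - t‖ * (K + 1) := by nlinarith [norm_nonneg (t' - t)]
      _ < e2 := hb')
  refine ⟨eval_ne_of_cop h3.1, ?_⟩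
  unfold sy
  rw [h3.2.1, h5.2.1]

/-- there are points near a given one outside of a finite set -/
theorem near_notMem (s : F) {ε : ℝ} (hε : 0 < ε) (Z : Finset F) :
    ∃ s' : F, s' ∉ Z ∧ ‖s' - s‖ < ε := by
  have hinf : (Metric.ball s ε).Infinite := infinite_of_mem_nhds s (Metric.ball_mem_nhds s hε)
  obtain ⟨s', hs', hZ⟩ := hinf.exists_notMem_finset Z
  exact ⟨s', hZ, by rwa [Metric.mem_ball, dist_eq_norm] at hs'⟩

end loc

end Pool.Agent.H91.WT
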